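import Mathlib

/-!
Arcs (multisets of points) in the projective Hjelmslev plane over a commutative ring.
For a commutative ring left and right modules are the same thing.
-/

namespace Pool.Agent.H911Z.Hjelm

/-- Points of `PHG(2,R)`: the free rank-one submodules of `R^3`. -/
def Point (R : Type) [CommRing R] : Type :=
  {U : Submodule R (Fin 3 → R) // Nonempty (Module.Basis (Fin 1) R U)}

/-- Lines of `PHG(2,R)`: the free rank-two submodules of `R^3`. -/
def Line (R : Type) [CommRing R] : Type :=
  {U : Submodule R (Fin 3 → R) // Nonempty (Module.Basis (Fin 2) R U)}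

/-- The multiset `K` of points is a `(k,n)`-arc: its total multiplicity is `k`, and the total
multiplicity of the points on (that is, contained in) any line is at most `n`. -/
def IsArc {R : Type} [CommRing R] (K : Point R → ℕ) (k n : ℕ) : Prop :=
  ∑ᶠ x : Point R, K x = k ∧
    ∀ L : Line R, ∑ᶠ (x : Point R) (_ : x.1 ≤ L.1), K x ≤ n

/-- A maximal `(k,n)`-arc: a `(k,n)`-arc such that every `(k',n)`-arc, projective or not, has
`k' ≤ k`. -/
def IsMaximalArc {R : Type} [CommRing R] (K : Point R → ℕ) (k n : ℕ) : Prop :=
  IsArc K k n ∧ ∀ (K' : Point R → ℕ) (k' : ℕ), IsArc K' k' n → k' ≤ k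

end Pool.Agent.H911Z.Hjelm
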