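import Mathlib

/-! Finite checks for the plane over `ZMod 25`. -/

namespace Pool.Agent.H911Z.Hjelm

def sumTo (n : ℕ) (f : ℕ → ℕ) : ℕ := Nat.rec 0 (fun i acc => f i + acc) n
def allTo (n : ℕ) (f : ℕ → Bool) : Bool := Nat.rec true (fun i acc => f i && acc) n
def anyTo (n : ℕ) (f : ℕ → Bool) : Bool := Nat.rec false (fun i acc => f i || acc) n

theorem sumTo_eq (n : ℕ) (f : ℕ → ℕ) : sumTo n f = ∑ i : Fin n, f i.1 := by
  rw [Fin.sum_univ_eq_sum_range (fun i => f i) n]
  induction n with
  | zero => rfl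
  | succ n ih =>
    rw [Finset.sum_range_succ, ← ih, add_comm (sumTo n f)]
    rfl

theorem allTo_spec (n : ℕ) (f : ℕ → Bool) (h : allTo n f = true) : ∀ i < n, f i = true := by
  induction n with
  | zero => intro i hi; omega
  | succ n ih =>
    have h' : (f n && allTo n f) = true := h
    rw [Bool.and_eq_true] at h'
    intro i hi
    rcases Nat.lt_succ_iff_lt_or_eq.mp hi with h1 | h1
    · exact ih h'.2 i h1
    · rw [h1]; exact h'.1

theorem anyTo_spec (n : ℕ) (f : ℕ → Bool) (h : anyTo n f = true) : ∃ i < n, f i = true := by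
  induction n with
  | zero => exact absurd h (by simp [anyTo])
  | succ n ih =>
    have h' : (f n || anyTo n f) = true := h
    rw [Bool.or_eq_true] at h'
    rcases h' with h1 | h1
    · exact ⟨n, by omega, h1⟩
    · obtain ⟨i, hi, h2⟩ := ih h1
      exact ⟨i, by omega, h2⟩

/-- Index set of canonical representatives. -/
abbrev Pt : Type := (Fin 25 × Fin 25) ⊕ (Fin 5 × Fin 25) ⊕ (Fin 5 × Fin 5)

def cx : Pt → ℕ
  | Sum.inl _ => 1
  | Sum.inr (Sum.inl (x, _)) => 5 * x.1
  | Sum.inr (Sum.inr (x, _)) => 5 * x.1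

def cy : Pt → ℕ
  | Sum.inl (y, _) => y.1
  | Sum.inr (Sum.inl _) => 1
  | Sum.inr (Sum.inr (_, y)) => 5 * y.1

def cz : Pt → ℕ
  | Sum.inl (_, z) => z.1
  | Sum.inr (Sum.inl (_, z)) => z.1
  | Sum.inr (Sum.inr _) => 1

def sumPt (F : ℕ → ℕ → ℕ → ℕ) : ℕ :=
  sumTo 25 (fun y => sumTo 25 (fun z => F 1 y z)) +
    (sumTo 5 (fun x => sumTo 25 (fun z => F (5 * x) 1 z)) +
      sumTo 5 (fun x => sumTo 5 (fun y => F (5 * x) (5 * y) 1)))

theorem sumPt_eq (F : ℕ → ℕ → ℕ → ℕ) : sumPt F = ∑ p : Pt, F (cx p) (cy p) (cz p) := by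
  simp only [sumPt, sumTo_eq, Fintype.sum_sum_type, Fintype.sum_prod_type, cx, cy, cz]

def allPt (F : ℕ → ℕ → ℕ → Bool) : Bool :=
  allTo 25 (fun y => allTo 25 (fun z => F 1 y z)) &&
    (allTo 5 (fun x => allTo 25 (fun z => F (5 * x) 1 z)) &&
      allTo 5 (fun x => allTo 5 (fun y => F (5 * x) (5 * y) 1)))

theorem allPt_spec (F : ℕ → ℕ → ℕ → Bool) (h : allPt F = true) (p : Pt) :
    F (cx p) (cy p) (cz p) = true := by
  simp only [allPt, Bool.and_eq_true] at h
  obtain ⟨h1, h2, h3⟩ := h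
  rcases p with ⟨y, z⟩ | ⟨x, z⟩ | ⟨x, y⟩
  · exact allTo_spec _ _ (allTo_spec _ _ h1 y.1 y.2) z.1 z.2
  · exact allTo_spec _ _ (allTo_spec _ _ h2 x.1 x.2) z.1 z.2
  · exact allTo_spec _ _ (allTo_spec _ _ h3 x.1 x.2) y.1 y.2

/-- Incidence of the point `(x, y, z)` with the line with coordinates `(a, b, c)`. -/
def inc (a b c x y z : ℕ) : Bool := Nat.beq ((a * x + b * y + c * z) % 25) 0

/-- The multiplicities of the example. -/
def kap (x y z : ℕ) : ℕ :=
  bif Nat.beq (z % 5) 0 then
    (bif Nat.beq x 1 then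
      (bif (Nat.beq (z / 5) (y % 5) || Nat.beq (z / 5) ((y + 1) % 5)) then 1 else 0)
    else (bif Nat.beq z 0 then 2 else 0))
  else 1

theorem kap_sum : sumPt kap = 685 := by decide +kernel

def lineSum (a b c : ℕ) : ℕ := sumPt (fun x y z => bif inc a b c x y z then kap x y z else 0)

def chk (j : ℕ) : Bool :=
  allTo 5 (fun b => allTo 25 (fun c => Nat.ble (lineSum 1 (5 * j + b) c) 27))

theorem chk0 : chk 0 = true := by decide +kernel
theorem chk1 : chk 1 = true := by decide +kernel
theorem chk2 : chk 2 = true := by decide +kernel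
theorem chk3 : chk 3 = true := by decide +kernel
theorem chk4 : chk 4 = true := by decide +kernel
theorem chk5 : allTo 5 (fun a => allTo 25 (fun c => Nat.ble (lineSum (5 * a) 1 c) 27)) = true := by
  decide +kernel
theorem chk6 : allTo 5 (fun a => allTo 5 (fun b => Nat.ble (lineSum (5 * a) (5 * b) 1) 27))
    = true := by decide +kernel

theorem lineSum_le (q : Pt) : lineSum (cx q) (cy q) (cz q) ≤ 27 := by
  rcases q with ⟨y, z⟩ | ⟨x, z⟩ | ⟨x, y⟩
  · have hc : chk (y.1 / 5) = true := by
      have : y.1 / 5 < 5 := by have := y.2; omega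
      interval_cases (y.1 / 5)
      exacts [chk0, chk1, chk2, chk3, chk4]
    have h := allTo_spec _ _ (allTo_spec _ _ hc (y.1 % 5) (by omega)) z.1 z.2
    rw [Nat.div_add_mod] at h
    exact Nat.le_of_ble_eq_true h
  · exact Nat.le_of_ble_eq_true (allTo_spec _ _ (allTo_spec _ _ chk5 x.1 x.2) z.1 z.2)
  · exact Nat.le_of_ble_eq_true (allTo_spec _ _ (allTo_spec _ _ chk6 x.1 x.2) y.1 y.2)

/-- Membership in the neighbour class of `(1,0,0)`. -/
def inC (x y z : ℕ) : Bool := Nat.beq x 1 && (Nat.beq (y % 5) 0 && Nat.beq (z % 5) 0)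

def linB (d j : ℕ) : ℕ := bif Nat.beq d 5 then 5 * j else 1
def linC (d j : ℕ) : ℕ := bif Nat.beq d 5 then 1 else d + 5 * j

/-- The segment in direction `d` that contains a point of the class. -/
def sig (d y z : ℕ) : ℕ :=
  bif Nat.beq d 5 then (4 * (z / 5)) % 5 else (4 * (y / 5 + (z / 5) * d)) % 5

theorem factIn : allPt (fun x y z => !(inC x y z) ||
    allTo 6 (fun d => allTo 5 (fun j => inc (5 * sig d y z) (linB d j) (linC d j) x y z)))
    = true := by decide +kernel

theorem factOut : allPt (fun x y z => inC x y z ||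
    anyTo 6 (fun d => allTo 5 (fun t => anyTo 5 (fun j =>
      inc (5 * t) (linB d j) (linC d j) x y z)))) = true := by decide +kernel

/-- The counting bound, for weights on the canonical representatives. -/
theorem count_bound (w : Pt → ℕ)
    (hl : ∀ d : Fin 6, ∀ t : Fin 5, ∀ j : Fin 5,
      ∑ p : Pt, (if inc (5 * t.1) (linB d.1 j.1) (linC d.1 j.1) (cx p) (cy p) (cz p) = true
        then w p else 0) ≤ 27)
    (hu : 21 ≤ ∑ p : Pt, (if inC (cx p) (cy p) (cz p) = true then w p else 0)) :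
    ∑ p : Pt, w p ≤ 685 := by
  set u := ∑ p : Pt, (if inC (cx p) (cy p) (cz p) = true then w p else 0) with hudef
  let U : Fin 6 → Fin 5 → ℕ := fun d t =>
    ∑ p : Pt, (if inC (cx p) (cy p) (cz p) = true ∧ sig d.1 (cy p) (cz p) = t.1 then w p else 0)
  have hsig : ∀ d y z, sig d y z < 5 := by
    intro d y z
    unfold sig
    cases Nat.beq d 5 <;> simp <;> omega
  have hU : ∀ d, ∑ t, U d t = u := by
    intro d
    simp only [U]
    rw [Finset.sum_comm, hudef]
    apply Finset.sum_congr rfl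
    intro p _
    by_cases hp : inC (cx p) (cy p) (cz p) = true
    · rw [if_pos hp, Finset.sum_eq_single (⟨sig d.1 (cy p) (cz p), hsig _ _ _⟩ : Fin 5)]
      · simp [hp]
      · intro t _ ht
        rw [if_neg]
        rintro ⟨_, h2⟩
        exact ht (Fin.ext h2.symm)
      · simp
    · simp [hp]
  have hex : ∀ d, ∃ t, u ≤ 5 * U d t := by
    intro d
    by_contra hcon
    push Not at hcon
    have h1 := hU d
    rw [Fin.sum_univ_five] at h1
    have a0 := hcon 0
    have a1 := hcon 1
    have a2 := hcon 2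
    have a3 := hcon 3
    have a4 := hcon 4
    omega
  choose t ht using hex
  have h1 : ∑ d : Fin 6, ∑ j : Fin 5, ∑ p : Pt,
      (if inc (5 * (t d).1) (linB d.1 j.1) (linC d.1 j.1) (cx p) (cy p) (cz p) = true
        then w p else 0) ≤ 810 := by
    calc _ ≤ ∑ _d : Fin 6, ∑ _j : Fin 5, 27 := by
          apply Finset.sum_le_sum
          intro d _
          apply Finset.sum_le_sum
          intro j _
          exact hl d (t d) j
      _ = 810 := by simp
  have h2 : ∑ p : Pt, ((if inC (cx p) (cy p) (cz p) = true then 0 else w p) +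
      ∑ d : Fin 6, 5 * (if inC (cx p) (cy p) (cz p) = true ∧ sig d.1 (cy p) (cz p) = (t d).1
        then w p else 0)) ≤ 810 := by
    refine le_trans ?_ h1
    have e1 : ∑ d : Fin 6, ∑ j : Fin 5, ∑ p : Pt,
        (if inc (5 * (t d).1) (linB d.1 j.1) (linC d.1 j.1) (cx p) (cy p) (cz p) = true
          then w p else 0) = ∑ p : Pt, ∑ d : Fin 6, ∑ j : Fin 5,
        (if inc (5 * (t d).1) (linB d.1 j.1) (linC d.1 j.1) (cx p) (cy p) (cz p) = true
          then w p else 0) := by
      rw [Finset.sum_comm (s := (Finset.univ : Finset Pt))]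
      apply Finset.sum_congr rfl
      intro d _
      rw [Finset.sum_comm]
    rw [e1]
    apply Finset.sum_le_sum
    intro p _
    by_cases hp : inC (cx p) (cy p) (cz p) = true
    · rw [if_pos hp, zero_add]
      apply Finset.sum_le_sum
      intro d _
      by_cases hs : sig d.1 (cy p) (cz p) = (t d).1
      · rw [if_pos ⟨hp, hs⟩]
        have h3 := allPt_spec _ factIn p
        simp only [hp, Bool.not_true, Bool.false_or] at h3
        have h4 := allTo_spec _ _ (allTo_spec _ _ h3 d.1 d.2)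
        rw [hs] at h4
        rw [Finset.sum_congr rfl (fun j _ => if_pos (h4 j.1 j.2))]
        simp
      · rw [if_neg (fun h => hs h.2)]
        simp
    · rw [if_neg hp]
      have h3 := allPt_spec _ factOut p
      have hp' : inC (cx p) (cy p) (cz p) = false := by simpa using hp
      simp only [hp', Bool.false_or] at h3
      obtain ⟨d, hd, h4⟩ := anyTo_spec _ _ h3
      obtain ⟨j, hj, h5⟩ := anyTo_spec _ _ (allTo_spec _ _ h4 (t ⟨d, hd⟩).1 (t ⟨d, hd⟩).2)
      have e2 : ∑ d : Fin 6, 5 * (if inC (cx p) (cy p) (cz p) = true ∧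
          sig d.1 (cy p) (cz p) = (t d).1 then w p else 0) = 0 := by
        simp [hp']
      rw [e2, add_zero]
      refine le_trans ?_ (Finset.single_le_sum (f := fun d : Fin 6 => ∑ j : Fin 5,
        (if inc (5 * (t d).1) (linB d.1 j.1) (linC d.1 j.1) (cx p) (cy p) (cz p) = true
          then w p else 0)) (fun _ _ => Nat.zero_le _) (Finset.mem_univ ⟨d, hd⟩))
      refine le_trans ?_ (Finset.single_le_sum (f := fun j : Fin 5 =>
        (if inc (5 * (t ⟨d, hd⟩).1) (linB d j.1) (linC d j.1) (cx p) (cy p) (cz p) = true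
          then w p else 0)) (fun _ _ => Nat.zero_le _) (Finset.mem_univ ⟨j, hj⟩))
      rw [if_pos h5]
  rw [Finset.sum_add_distrib, Finset.sum_comm] at h2
  have e3 : ∀ d : Fin 6, ∑ p : Pt, 5 * (if inC (cx p) (cy p) (cz p) = true ∧
      sig d.1 (cy p) (cz p) = (t d).1 then w p else 0) = 5 * U d (t d) := by
    intro d
    rw [Finset.mul_sum]
  rw [Finset.sum_congr rfl (fun d _ => e3 d), Fin.sum_univ_six] at h2
  have e4 : ∑ p : Pt, w p = u + ∑ p : Pt, (if inC (cx p) (cy p) (cz p) = true then 0 else w p) := by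
    rw [hudef, ← Finset.sum_add_distrib]
    apply Finset.sum_congr rfl
    intro p _
    split_ifs <;> simp
  have b0 := ht 0
  have b1 := ht 1
  have b2 := ht 2
  have b3 := ht 3
  have b4 := ht 4
  have b5 := ht 5
  omega

end Pool.Agent.H911Z.Hjelm
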