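import Mathlib
import Pool.Agent.H911Z.Hjelm.Defs
import Pool.Agent.H911Z.Hjelm.Fin

namespace Pool.Agent.H911Z.Hjelm

abbrev R25 : Type := ZMod 25
abbrev V : Type := Fin 3 → R25

def vec (p : Pt) : V := ![((cx p : ℕ) : R25), ((cy p : ℕ) : R25), ((cz p : ℕ) : R25)]

def Unimod (v : V) : Prop := ∃ i, IsUnit (v i)

theorem unit_or : ∀ r : R25, (∃ s, s * r = 1) ∨ 5 * r = 0 := by decide +kernel
theorem five_ne : (5 : R25) ≠ 0 := by decide
theorem five_mul_ex : ∀ r : R25, 5 * r = 0 → ∃ x : Fin 5, r = ((5 * x.1 : ℕ) : R25) := by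
  decide +kernel
theorem cast_ex : ∀ r : R25, ∃ y : Fin 25, r = ((y.1 : ℕ) : R25) := by decide +kernel
theorem cast_inj : ∀ a b : Fin 25, ((a.1 : ℕ) : R25) = ((b.1 : ℕ) : R25) → a = b := by
  decide +kernel
theorem cast5_inj : ∀ a b : Fin 5, ((5 * a.1 : ℕ) : R25) = ((5 * b.1 : ℕ) : R25) → a = b := by
  decide +kernel
theorem one_ne_mul5 : ∀ (m : R25) (a : Fin 5), ((1 : ℕ) : R25) ≠ m * ((5 * a.1 : ℕ) : R25) := by
  decide +kernel

theorem unimod_of_ne (v : V) (h : (5 : R25) • v ≠ 0) : Unimod v := by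
  by_contra hcon
  apply h
  funext i
  rcases unit_or (v i) with ⟨s, hs⟩ | h5
  · exact absurd ⟨i, IsUnit.of_mul_eq_one_right s hs⟩ hcon
  · simpa using h5

theorem unimod_vec (p : Pt) : Unimod (vec p) := by
  rcases p with ⟨y, z⟩ | ⟨x, z⟩ | ⟨x, y⟩
  · exact ⟨0, by simp [vec, cx]⟩
  · exact ⟨1, by simp [vec, cy]⟩
  · exact ⟨2, by simp [vec, cz]⟩

theorem normal_form (v : V) (h : Unimod v) : ∃ (l : R25ˣ) (p : Pt), v = (l : R25) • vec p := by
  by_cases h0 : IsUnit (v 0)
  · obtain ⟨l, hl⟩ := h0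
    obtain ⟨y, hy⟩ := cast_ex ((l⁻¹ : R25ˣ) * v 1)
    obtain ⟨z, hz⟩ := cast_ex ((l⁻¹ : R25ˣ) * v 2)
    refine ⟨l, Sum.inl (y, z), ?_⟩
    funext i
    fin_cases i
    · simp [vec, cx, hl]
    · simp [vec, cy, ← hy]
    · simp [vec, cz, ← hz]
  · have h50 : 5 * v 0 = 0 := by
      rcases unit_or (v 0) with ⟨s, hs⟩ | h5
      · exact absurd (IsUnit.of_mul_eq_one_right s hs) h0
      · exact h5
    by_cases h1 : IsUnit (v 1)
    · obtain ⟨l, hl⟩ := h1
      obtain ⟨x, hx⟩ := five_mul_ex ((l⁻¹ : R25ˣ) * v 0) (by linear_combination (l⁻¹ : R25ˣ) * h50)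
      obtain ⟨z, hz⟩ := cast_ex ((l⁻¹ : R25ˣ) * v 2)
      refine ⟨l, Sum.inr (Sum.inl (x, z)), ?_⟩
      funext i
      fin_cases i
      · simp only [vec, cx, Fin.zero_eta, Pi.smul_apply, Matrix.cons_val_zero, smul_eq_mul, ← hx]
        simp
      · simp [vec, cy, hl]
      · simp [vec, cz, ← hz]
    · have h51 : 5 * v 1 = 0 := by
        rcases unit_or (v 1) with ⟨s, hs⟩ | h5
        · exact absurd (IsUnit.of_mul_eq_one_right s hs) h1
        · exact h5
      have h2 : IsUnit (v 2) := by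
        obtain ⟨i, hi⟩ := h
        fin_cases i
        · exact absurd hi h0
        · exact absurd hi h1
        · exact hi
      obtain ⟨l, hl⟩ := h2
      obtain ⟨x, hx⟩ := five_mul_ex ((l⁻¹ : R25ˣ) * v 0) (by linear_combination (l⁻¹ : R25ˣ) * h50)
      obtain ⟨y, hy⟩ := five_mul_ex ((l⁻¹ : R25ˣ) * v 1) (by linear_combination (l⁻¹ : R25ˣ) * h51)
      refine ⟨l, Sum.inr (Sum.inr (x, y)), ?_⟩
      funext i
      fin_cases i
      · simp only [vec, cx, Fin.zero_eta, Pi.smul_apply, Matrix.cons_val_zero, smul_eq_mul, ← hx]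
        simp
      · simp only [vec, cy, Fin.mk_one, Pi.smul_apply, Matrix.cons_val_one, Matrix.cons_val_zero,
          smul_eq_mul, ← hy]
        simp
      · simp [vec, cz, hl]

theorem vec_inj (p q : Pt) (l m : R25) (h1 : vec q = l • vec p) (h2 : vec p = m • vec q) :
    p = q := by
  have a0 := congrFun h1 0
  have a1 := congrFun h1 1
  have a2 := congrFun h1 2
  have b0 := congrFun h2 0
  have b1 := congrFun h2 1
  have b2 := congrFun h2 2
  simp only [vec, Pi.smul_apply, Matrix.cons_val_zero, Matrix.cons_val_one, Matrix.cons_val,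
    smul_eq_mul] at a0 a1 a2 b0 b1 b2
  rcases p with ⟨y, z⟩ | ⟨x, z⟩ | ⟨x, y⟩ <;> rcases q with ⟨y', z'⟩ | ⟨x', z'⟩ | ⟨x', y'⟩ <;>
    simp only [cx, cy, cz] at a0 a1 a2 b0 b1 b2
  · have hl : l = 1 := by simpa using a0.symm
    rw [hl, one_mul] at a1 a2
    rw [cast_inj _ _ a1, cast_inj _ _ a2]
  · exact absurd b0 (one_ne_mul5 _ _)
  · exact absurd b0 (one_ne_mul5 _ _)
  · exact absurd a0 (one_ne_mul5 _ _)
  · have hl : l = 1 := by simpa using a1.symm
    rw [hl, one_mul] at a0 a2
    rw [cast5_inj _ _ a0, cast_inj _ _ a2]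
  · exact absurd b1 (one_ne_mul5 _ _)
  · exact absurd a0 (one_ne_mul5 _ _)
  · exact absurd a1 (one_ne_mul5 _ _)
  · have hl : l = 1 := by simpa using a2.symm
    rw [hl, one_mul] at a0 a1
    rw [cast5_inj _ _ a0, cast5_inj _ _ a1]

theorem li_one (v : V) (h : Unimod v) : LinearIndependent R25 (fun _ : Fin 1 => v) := by
  rw [Fintype.linearIndependent_iff]
  intro g hg i
  obtain ⟨j, hj⟩ := h
  have h1 := congrFun hg j
  simp only [Finset.univ_unique, Fin.default_eq_zero, Finset.sum_singleton, Pi.smul_apply,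
    smul_eq_mul, Pi.zero_apply] at h1
  have h2 : g 0 = 0 := (hj.mul_left_eq_zero).mp h1
  rw [Subsingleton.elim i 0, h2]

noncomputable def mkPoint (v : V) (h : Unimod v) : Point R25 :=
  ⟨Submodule.span R25 {v}, by
    have e : Submodule.span R25 {v} = Submodule.span R25 (Set.range (fun _ : Fin 1 => v)) := by
      simp
    rw [e]
    exact ⟨Module.Basis.span (li_one v h)⟩⟩

theorem span_basis {ι : Type} (U : Submodule R25 V) (b : Module.Basis ι R25 U) :
    U = Submodule.span R25 (Set.range (fun i => (b i : V))) := by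
  have h := congrArg (Submodule.map U.subtype) b.span_eq
  rw [Submodule.map_top, Submodule.range_subtype, Submodule.map_span, ← Set.range_comp] at h
  exact h.symm

theorem li_basis {ι : Type} (U : Submodule R25 V) (b : Module.Basis ι R25 U) :
    LinearIndependent R25 (fun i => (b i : V)) :=
  b.linearIndependent.map' U.subtype (Submodule.ker_subtype U)

noncomputable def ePt0 (p : Pt) : Point R25 := mkPoint (vec p) (unimod_vec p)

theorem ePt0_bij : Function.Bijective ePt0 := by
  constructor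
  · intro p q h
    have h1 : Submodule.span R25 {vec p} = Submodule.span R25 {vec q} := congrArg Subtype.val h
    have h2 : vec q ∈ Submodule.span R25 {vec p} := by
      rw [h1]; exact Submodule.mem_span_singleton_self _
    have h3 : vec p ∈ Submodule.span R25 {vec q} := by
      rw [← h1]; exact Submodule.mem_span_singleton_self _
    obtain ⟨l, hl⟩ := Submodule.mem_span_singleton.mp h2
    obtain ⟨m, hm⟩ := Submodule.mem_span_singleton.mp h3
    exact vec_inj p q l m hl.symm hm.symm
  · rintro ⟨U, ⟨b⟩⟩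
    have h1 := span_basis U b
    have h2 := li_basis U b
    have h3 : Unimod (b 0 : V) := by
      apply unimod_of_ne
      intro h5
      have := Fintype.linearIndependent_iff.mp h2 (fun _ => 5) (by simpa using h5) 0
      exact five_ne this
    obtain ⟨l, p, hp⟩ := normal_form _ h3
    refine ⟨p, Subtype.ext ?_⟩
    show Submodule.span R25 {vec p} = U
    have h4 : Set.range (fun i : Fin 1 => (b i : V)) = {(b 0 : V)} := by
      rw [Set.range_unique]; rfl
    rw [h1, h4, hp, Submodule.span_singleton_smul_eq l.isUnit]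

noncomputable def ePt : Pt ≃ Point R25 := Equiv.ofBijective ePt0 ePt0_bij

theorem ePt_val (p : Pt) : (ePt p).1 = Submodule.span R25 {vec p} := rfl

/-- Transport of points along a linear automorphism. -/
noncomputable def mapPt (g : V ≃ₗ[R25] V) (x : Point R25) : Point R25 :=
  ⟨x.1.map (g : V →ₗ[R25] V), by
    obtain ⟨b⟩ := x.2
    exact ⟨b.map (g.submoduleMap x.1)⟩⟩

noncomputable def mapLine (g : V ≃ₗ[R25] V) (x : Line R25) : Line R25 :=
  ⟨x.1.map (g : V →ₗ[R25] V), by
    obtain ⟨b⟩ := x.2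
    exact ⟨b.map (g.submoduleMap x.1)⟩⟩

noncomputable def mapPtE (g : V ≃ₗ[R25] V) : Point R25 ≃ Point R25 where
  toFun := mapPt g
  invFun := mapPt g.symm
  left_inv x := by
    apply Subtype.ext
    simp [mapPt, ← Submodule.map_comp]
  right_inv x := by
    apply Subtype.ext
    simp [mapPt, ← Submodule.map_comp]

noncomputable def E (g : V ≃ₗ[R25] V) : Pt ≃ Point R25 := ePt.trans (mapPtE g)

theorem E_val (g : V ≃ₗ[R25] V) (p : Pt) : (E g p).1 = Submodule.span R25 {g (vec p)} := by
  show (Submodule.span R25 {vec p}).map (g : V →ₗ[R25] V) = _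
  rw [Submodule.map_span, Set.image_singleton]
  rfl

theorem finsum_E (e : Pt ≃ Point R25) (f : Point R25 → ℕ) :
    ∑ᶠ x, f x = ∑ p : Pt, f (e p) := by
  rw [← finsum_comp_equiv e, finsum_eq_sum_of_fintype]

open Classical in
theorem finsum_line (e : Pt ≃ Point R25) (K : Point R25 → ℕ) (L : Line R25) :
    ∑ᶠ (x : Point R25) (_ : x.1 ≤ L.1), K x =
      ∑ p : Pt, if (e p).1 ≤ L.1 then K (e p) else 0 := by
  rw [finsum_E e]
  apply Finset.sum_congr rfl
  intro p _
  rw [finsum_eq_if]

theorem inc_iff (a b c x y z : ℕ) :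
    inc a b c x y z = true ↔ (a : R25) * x + (b : R25) * y + (c : R25) * z = 0 := by
  unfold inc
  rw [Nat.beq_eq, ← Nat.dvd_iff_mod_eq_zero, ← ZMod.natCast_eq_zero_iff]
  push_cast
  rfl

noncomputable def mkLine (u v : V) (h : LinearIndependent R25 ![u, v]) : Line R25 :=
  ⟨Submodule.span R25 (Set.range ![u, v]), ⟨Module.Basis.span h⟩⟩

theorem exists_line (t : Fin 5) (d : Fin 6) (j : Fin 5) : ∃ L : Line R25, ∀ p : Pt,
    inc (5 * t.1) (linB d.1 j.1) (linC d.1 j.1) (cx p) (cy p) (cz p) = true → vec p ∈ L.1 := by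
  by_cases hd : d.1 = 5
  · have hB : linB d.1 j.1 = 5 * j.1 := by simp [linB, hd]
    have hC : linC d.1 j.1 = 1 := by simp [linC, hd]
    rw [hB, hC]
    have hli : LinearIndependent R25 ![(![1, 0, -((5 * t.1 : ℕ) : R25)] : V),
        (![0, 1, -((5 * j.1 : ℕ) : R25)] : V)] := by
      rw [LinearIndependent.pair_iff]
      intro s r h
      have h0 := congrFun h 0
      have h1 := congrFun h 1
      simp at h0 h1
      exact ⟨h0, h1⟩
    refine ⟨mkLine _ _ hli, fun p hp => ?_⟩
    rw [inc_iff] at hp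
    show vec p ∈ Submodule.span R25 _
    rw [Matrix.range_cons, Matrix.range_cons, Matrix.range_empty, Set.union_empty,
      Set.singleton_union, Submodule.mem_span_pair]
    refine ⟨(cx p : R25), (cy p : R25), ?_⟩
    funext i
    fin_cases i
    · simp [vec]
    · simp [vec]
    · simp only [vec, Fin.reduceFinMk, Pi.add_apply, Pi.smul_apply, Matrix.cons_val, smul_eq_mul]
      push_cast at hp ⊢
      linear_combination -hp
  · have hB : linB d.1 j.1 = 1 := by
      have : Nat.beq d.1 5 = false := by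
        cases h : Nat.beq d.1 5
        · rfl
        · exact absurd (Nat.eq_of_beq_eq_true h) hd
      simp [linB, this]
    rw [hB]
    have hli : LinearIndependent R25 ![(![1, -((5 * t.1 : ℕ) : R25), 0] : V),
        (![0, -((linC d.1 j.1 : ℕ) : R25), 1] : V)] := by
      rw [LinearIndependent.pair_iff]
      intro s r h
      have h0 := congrFun h 0
      have h1 := congrFun h 2
      simp at h0 h1
      exact ⟨h0, h1⟩
    refine ⟨mkLine _ _ hli, fun p hp => ?_⟩
    rw [inc_iff] at hp
    show vec p ∈ Submodule.span R25 _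
    rw [Matrix.range_cons, Matrix.range_cons, Matrix.range_empty, Set.union_empty,
      Set.singleton_union, Submodule.mem_span_pair]
    refine ⟨(cx p : R25), (cz p : R25), ?_⟩
    funext i
    fin_cases i
    · simp [vec]
    · simp only [vec, Fin.mk_one, Pi.add_apply, Pi.smul_apply, Matrix.cons_val_one,
        Matrix.cons_val_zero, smul_eq_mul]
      push_cast at hp ⊢
      linear_combination -hp
    · simp [vec]

theorem bound_of_class (K : Point R25 → ℕ) (k : ℕ) (h : IsArc K k 27) (g : V ≃ₗ[R25] V)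
    (hu : 21 ≤ ∑ p : Pt, (if inC (cx p) (cy p) (cz p) = true then K (E g p) else 0)) :
    k ≤ 685 := by
  classical
  rw [← h.1, finsum_E (E g)]
  apply count_bound (fun p => K (E g p)) _ hu
  intro d t j
  obtain ⟨L, hL⟩ := exists_line t d j
  have h1 := h.2 (mapLine g L)
  rw [finsum_line (E g)] at h1
  refine le_trans (Finset.sum_le_sum ?_) h1
  intro p _
  by_cases hp : inc (5 * t.1) (linB d.1 j.1) (linC d.1 j.1) (cx p) (cy p) (cz p) = true
  · rw [if_pos hp, if_pos]
    rw [E_val, Submodule.span_singleton_le_iff_mem]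
    exact Submodule.mem_map_of_mem (hL p hp)
  · rw [if_neg hp]
    exact Nat.zero_le _

def g1 (a b : R25) : V ≃ₗ[R25] V where
  toFun v := ![v 0, v 1 + a * v 0, v 2 + b * v 0]
  invFun v := ![v 0, v 1 - a * v 0, v 2 - b * v 0]
  map_add' u v := by funext i; fin_cases i <;> simp <;> ring
  map_smul' c v := by funext i; fin_cases i <;> simp <;> ring
  left_inv v := by funext i; fin_cases i <;> simp
  right_inv v := by funext i; fin_cases i <;> simp

def g2 (b : R25) : V ≃ₗ[R25] V where
  toFun v := ![v 1, v 0, v 2 + b * v 0]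
  invFun v := ![v 1, v 0, v 2 - b * v 1]
  map_add' u v := by funext i; fin_cases i <;> simp <;> ring
  map_smul' c v := by funext i; fin_cases i <;> simp <;> ring
  left_inv v := by funext i; fin_cases i <;> simp
  right_inv v := by funext i; fin_cases i <;> simp

def g3 : V ≃ₗ[R25] V where
  toFun v := ![v 2, v 1, v 0]
  invFun v := ![v 2, v 1, v 0]
  map_add' u v := by funext i; fin_cases i <;> simp
  map_smul' c v := by funext i; fin_cases i <;> simp
  left_inv v := by funext i; fin_cases i <;> simp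
  right_inv v := by funext i; fin_cases i <;> simp

abbrev Cl : Type := (Fin 5 × Fin 5) ⊕ Fin 5 ⊕ Unit

def gc : Cl → (V ≃ₗ[R25] V)
  | Sum.inl (a, b) => g1 (a.1 : ℕ) (b.1 : ℕ)
  | Sum.inr (Sum.inl b) => g2 (b.1 : ℕ)
  | Sum.inr (Sum.inr _) => g3

theorem split25 : ∀ y : Fin 25, ∃ (a : Fin 5) (y' : Fin 25), y'.1 % 5 = 0 ∧
    ((y.1 : ℕ) : R25) = (y'.1 : ℕ) + (a.1 : ℕ) := by decide +kernel

theorem cover (p : Pt) : ∃ (c : Cl) (q : Pt), inC (cx q) (cy q) (cz q) = true ∧
    vec p = gc c (vec q) := by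
  rcases p with ⟨y, z⟩ | ⟨x, z⟩ | ⟨x, y⟩
  · obtain ⟨a, y', hy, ey⟩ := split25 y
    obtain ⟨b, z', hz, ez⟩ := split25 z
    refine ⟨Sum.inl (a, b), Sum.inl (y', z'), by simp [inC, cx, cy, cz, hy, hz], ?_⟩
    funext i
    fin_cases i <;> simp [gc, g1, vec, cx, cy, cz, ey, ez]
  · obtain ⟨b, z', hz, ez⟩ := split25 z
    refine ⟨Sum.inr (Sum.inl b), Sum.inl (⟨5 * x.1, by have := x.2; omega⟩, z'),
      by simp [inC, cx, cy, cz, hz], ?_⟩
    funext i
    fin_cases i <;> simp [gc, g2, vec, cx, cy, cz, ez]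
  · refine ⟨Sum.inr (Sum.inr ()), Sum.inl (⟨5 * y.1, by have := y.2; omega⟩,
      ⟨5 * x.1, by have := x.2; omega⟩), by simp [inC, cx, cy, cz], ?_⟩
    funext i
    fin_cases i <;> simp [gc, g3, vec, cx, cy, cz]

theorem upper (K : Point R25 → ℕ) (k : ℕ) (h : IsArc K k 27) : k ≤ 685 := by
  classical
  by_contra hk
  have hall : ∀ c : Cl,
      ∑ p : Pt, (if inC (cx p) (cy p) (cz p) = true then K (E (gc c) p) else 0) ≤ 20 := by
    intro c
    by_contra hc
    exact hk (bound_of_class K k h (gc c) (by omega))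
  have h1 : ∑ c : Cl, ∑ p : Pt,
      (if inC (cx p) (cy p) (cz p) = true then K (E (gc c) p) else 0) ≤ 620 := by
    calc _ ≤ ∑ _c : Cl, 20 := Finset.sum_le_sum (fun c _ => hall c)
      _ = 620 := by simp
  choose c q hq using cover
  have h2 : k ≤ ∑ c : Cl, ∑ p : Pt,
      (if inC (cx p) (cy p) (cz p) = true then K (E (gc c) p) else 0) := by
    rw [← h.1, finsum_E ePt, ← Fintype.sum_prod_type']
    have hE : ∀ p, E (gc (c p)) (q p) = ePt p := by
      intro p
      apply Subtype.ext
      rw [E_val, ePt_val, ← (hq p).2]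
    have hinj : Function.Injective (fun p : Pt => (c p, q p)) := by
      intro p p' hpp
      simp only [Prod.mk.injEq] at hpp
      apply ePt.injective
      rw [← hE p, ← hE p', hpp.1, hpp.2]
    calc ∑ p : Pt, K (ePt p)
        = ∑ p : Pt, (fun x : Cl × Pt => if inC (cx x.2) (cy x.2) (cz x.2) = true
            then K (E (gc x.1) x.2) else 0) (c p, q p) := by
          apply Finset.sum_congr rfl
          intro p _
          simp only [(hq p).1, if_true, hE]
      _ = ∑ x ∈ Finset.univ.image (fun p : Pt => (c p, q p)),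
            (fun x : Cl × Pt => if inC (cx x.2) (cy x.2) (cz x.2) = true
              then K (E (gc x.1) x.2) else 0) x := by
          rw [Finset.sum_image (fun a _ b _ hab => hinj hab)]
      _ ≤ _ := Finset.sum_le_sum_of_subset (Finset.subset_univ _)
  omega

noncomputable def K0 : Point R25 → ℕ := fun x =>
  kap (cx (ePt.symm x)) (cy (ePt.symm x)) (cz (ePt.symm x))

theorem K0_ePt (p : Pt) : K0 (ePt p) = kap (cx p) (cy p) (cz p) := by
  simp [K0]

theorem line_form (L : Line R25) : ∃ q : Pt, ∀ p : Pt, vec p ∈ L.1 →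
    inc (cx q) (cy q) (cz q) (cx p) (cy p) (cz p) = true := by
  obtain ⟨U, ⟨b⟩⟩ := L
  have h1 := span_basis U b
  have h2 := li_basis U b
  set u : V := (b 0 : V) with hu
  set v : V := (b 1 : V) with hv
  have h3 : (fun i => (b i : V)) = ![u, v] := by
    funext i
    fin_cases i <;> rfl
  rw [h3] at h1 h2
  rw [LinearIndependent.pair_iff] at h2
  let a : V := ![u 1 * v 2 - u 2 * v 1, u 2 * v 0 - u 0 * v 2, u 0 * v 1 - u 1 * v 0]
  have ha : Unimod a := by
    apply unimod_of_ne
    intro h5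
    have e0 : 5 * (u 1 * v 2 - u 2 * v 1) = 0 := by simpa [a] using congrFun h5 0
    have e1 : 5 * (u 2 * v 0 - u 0 * v 2) = 0 := by simpa [a] using congrFun h5 1
    have e2 : 5 * (u 0 * v 1 - u 1 * v 0) = 0 := by simpa [a] using congrFun h5 2
    have k : ∀ i, 5 * u i = 0 := by
      intro i
      refine (h2 (-(5 * v i)) (5 * u i) ?_).2
      funext j
      simp only [Pi.add_apply, Pi.smul_apply, smul_eq_mul, Pi.zero_apply]
      fin_cases i <;> fin_cases j <;> simp only [Fin.zero_eta, Fin.mk_one, Fin.reduceFinMk]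
      · ring
      · linear_combination e2
      · linear_combination -e1
      · linear_combination -e2
      · ring
      · linear_combination e0
      · linear_combination e1
      · linear_combination -e0
      · ring
    have := (h2 5 0 (by funext j; simpa using k j)).1
    exact five_ne this
  obtain ⟨l, q, hq⟩ := normal_form a ha
  refine ⟨q, fun p hp => ?_⟩
  change vec p ∈ U at hp
  rw [h1, Matrix.range_cons, Matrix.range_cons, Matrix.range_empty, Set.union_empty,
    Set.singleton_union, Submodule.mem_span_pair] at hp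
  obtain ⟨s, r, hsr⟩ := hp
  have a0 : u 1 * v 2 - u 2 * v 1 = l * (cx q : R25) := by simpa [a, vec] using congrFun hq 0
  have a1 : u 2 * v 0 - u 0 * v 2 = l * (cy q : R25) := by simpa [a, vec] using congrFun hq 1
  have a2 : u 0 * v 1 - u 1 * v 0 = l * (cz q : R25) := by simpa [a, vec] using congrFun hq 2
  have p0 : s * u 0 + r * v 0 = (cx p : R25) := by simpa [vec] using congrFun hsr 0
  have p1 : s * u 1 + r * v 1 = (cy p : R25) := by simpa [vec] using congrFun hsr 1
  have p2 : s * u 2 + r * v 2 = (cz p : R25) := by simpa [vec] using congrFun hsr 2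
  rw [inc_iff]
  apply (l.isUnit.mul_right_eq_zero).mp
  rw [← p0, ← p1, ← p2]
  linear_combination -(s * u 0 + r * v 0) * a0 - (s * u 1 + r * v 1) * a1 - (s * u 2 + r * v 2) * a2

theorem K0_arc : IsArc K0 685 27 := by
  classical
  constructor
  · rw [finsum_E ePt, ← kap_sum, sumPt_eq]
    simp only [K0_ePt]
  · intro L
    obtain ⟨q, hq⟩ := line_form L
    rw [finsum_line ePt]
    refine le_trans ?_ (lineSum_le q)
    rw [lineSum, sumPt_eq]
    apply Finset.sum_le_sum
    intro p _
    by_cases hp : (ePt p).1 ≤ L.1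
    · rw [if_pos hp]
      rw [ePt_val, Submodule.span_singleton_le_iff_mem] at hp
      rw [hq p hp, K0_ePt]
      exact le_rfl
    · rw [if_neg hp]
      exact Nat.zero_le _

theorem main : ∃ K : Point (ZMod 25) → ℕ, IsMaximalArc K 685 27 ∧ ∃ x, K x = 2 :=
  ⟨K0, ⟨K0_arc, upper⟩, ePt (Sum.inr (Sum.inl (0, 0))), by rw [K0_ePt]; decide⟩

end Pool.Agent.H911Z.Hjelm
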